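import Mathlib
import Pool.Agent.Results.MP_a6415b_co.NoLinearBound

/-!
The exact value of the on-line token colouring game on the 5-cycle with one chord:
`f(w, C₅⁺) = w + ⌊(w + 2) / 4⌋` for every width `w`. In particular `f(w, C₅⁺) = (5/4 + o(1)) w`.
-/

set_option autoImplicit false
set_option linter.unusedSimpArgs false

namespace Pool.Agent.Results.MP_f00a0c_co.ExactValue

open Pool.Agent.Results.MP_a6415b_co.NoLinearBound

/-- The 5-cycle on `0, 1, 2, 3, 4` with the chord `{0, 2}`. -/
def C5p : SimpleGraph (Fin 5) :=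
  SimpleGraph.fromRel fun u v => v = u + 1 ∨ (u = 0 ∧ v = 2)

instance : DecidableRel C5p.Adj := by
  unfold C5p
  infer_instance

/-! ### Numbers -/

def GoodN (w T ua ub uc ud ue p q r s : ℕ) : Prop :=
  (ua = 0 ∨ ub = 0) ∧ (ud = 0 ∨ ue = 0) ∧
  (q ≤ T ∨ q + (w - T) ≤ (ub + p + q) + (uc + q + r) + (ue + s)) ∧
  (r ≤ T ∨ r + (w - T) ≤ (ud + r + s) + (uc + q + r) + (ua + p)) ∧
  (ub = 0 ∨ uc = 0 ∨ (T ≤ q ∧ (ub + p + q) + (uc + q + r) ≤ (w - T) + q)) ∧
  (ud = 0 ∨ uc = 0 ∨ (T ≤ r ∧ ((ud + r + s) + (uc + q + r) ≤ (w - T) + r ∨ ud ≤ T)))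

def Leg (w ua ub uc ud ue p q r s : ℕ) : Prop :=
  (ua + p) + (uc + q + r) + (ue + s) ≤ w ∧ (ub + p + q) + (ue + s) ≤ w ∧
  (ub + p + q) + (ud + r + s) ≤ w ∧ (ua + p) + (ud + r + s) ≤ w

theorem final_num (w T ua ub uc ud ue p q r s : ℕ) (hT : T = (w + 2) / 4)
    (h : GoodN w T ua ub uc ud ue p q r s) (hl : Leg w ua ub uc ud ue p q r s) :
    ua + ub + uc + ud + ue + p + q + r + s ≤ w + T := by
  unfold GoodN Leg at *
  omega

theorem stepA (w T ua ub uc ud ue p q r s : ℕ) (hT : T = (w + 2) / 4)
    (h : GoodN w T ua ub uc ud ue p q r s) (hl : Leg w (ua+1) ub uc ud ue p q r s) :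
    GoodN w T (ua+1) ub uc ud ue p q r s ∨
    (0 < ub ∧ GoodN w T ua (ub-1) uc ud ue (p+1) q r s) := by
  unfold GoodN Leg at *
  by_cases h0 : 0 < ub
  · right
    refine ⟨h0, ?_, ?_, ?_, ?_, ?_, ?_⟩ <;> omega
  · left
    refine ⟨?_, ?_, ?_, ?_, ?_, ?_⟩ <;> omega

theorem stepE (w T ua ub uc ud ue p q r s : ℕ) (hT : T = (w + 2) / 4)
    (h : GoodN w T ua ub uc ud ue p q r s) (hl : Leg w ua ub uc ud (ue+1) p q r s) :
    GoodN w T ua ub uc ud (ue+1) p q r s ∨
    (0 < ud ∧ GoodN w T ua ub uc (ud-1) ue p q r (s+1)) := by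
  unfold GoodN Leg at *
  by_cases h0 : 0 < ud
  · right
    refine ⟨h0, ?_, ?_, ?_, ?_, ?_, ?_⟩ <;> omega
  · left
    refine ⟨?_, ?_, ?_, ?_, ?_, ?_⟩ <;> omega

theorem stepB (w T ua ub uc ud ue p q r s : ℕ) (hT : T = (w + 2) / 4)
    (h : GoodN w T ua ub uc ud ue p q r s) (hl : Leg w ua (ub+1) uc ud ue p q r s) :
    GoodN w T ua (ub+1) uc ud ue p q r s ∨
    (0 < ua ∧ GoodN w T (ua-1) ub uc ud ue (p+1) q r s) ∨
    (0 < uc ∧ GoodN w T ua ub (uc-1) ud ue p (q+1) r s) := by
  unfold GoodN Leg at *
  by_cases h0 : 0 < ua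
  · right; left
    refine ⟨h0, ?_, ?_, ?_, ?_, ?_, ?_⟩ <;> omega
  · by_cases h1 : 0 < uc ∧ (q + 1 ≤ T ∨
      (q + 1) + (w - T) ≤ (ub + p + (q+1)) + (uc - 1 + (q+1) + r) + (ue + s))
    · right; right
      refine ⟨h1.1, ?_, ?_, ?_, ?_, ?_, ?_⟩ <;> omega
    · left
      refine ⟨?_, ?_, ?_, ?_, ?_, ?_⟩ <;> omega

theorem stepD (w T ua ub uc ud ue p q r s : ℕ) (hT : T = (w + 2) / 4)
    (h : GoodN w T ua ub uc ud ue p q r s) (hl : Leg w ua ub uc (ud+1) ue p q r s) :
    GoodN w T ua ub uc (ud+1) ue p q r s ∨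
    (0 < ue ∧ GoodN w T ua ub uc ud (ue-1) p q r (s+1)) ∨
    (0 < uc ∧ GoodN w T ua ub (uc-1) ud ue p q (r+1) s) := by
  unfold GoodN Leg at *
  by_cases h0 : 0 < ue
  · right; left
    refine ⟨h0, ?_, ?_, ?_, ?_, ?_, ?_⟩ <;> omega
  · by_cases h1 : 0 < uc ∧ (r + 1 ≤ T ∨
      (r + 1) + (w - T) ≤ (ud + (r+1) + s) + (uc - 1 + q + (r+1)) + (ua + p))
    · right; right
      refine ⟨h1.1, ?_, ?_, ?_, ?_, ?_, ?_⟩ <;> omega
    · left
      refine ⟨?_, ?_, ?_, ?_, ?_, ?_⟩ <;> omega

theorem stepC (w T ua ub uc ud ue p q r s : ℕ) (hT : T = (w + 2) / 4)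
    (h : GoodN w T ua ub uc ud ue p q r s) (hl : Leg w ua ub (uc+1) ud ue p q r s) :
    GoodN w T ua ub (uc+1) ud ue p q r s ∨
    (0 < ub ∧ GoodN w T ua (ub-1) uc ud ue p (q+1) r s) ∨
    (0 < ud ∧ GoodN w T ua ub uc (ud-1) ue p q (r+1) s) := by
  unfold GoodN Leg at *
  by_cases h0 : 0 < ub ∧ (q + 1 ≤ T ∨
      (q + 1) + (w - T) ≤ (ub - 1 + p + (q+1)) + (uc + (q+1) + r) + (ue + s))
  · right; left
    refine ⟨h0.1, ?_, ?_, ?_, ?_, ?_, ?_⟩ <;> omega
  · by_cases h1 : 0 < ud ∧ (r + 1 ≤ T ∨
      (r + 1) + (w - T) ≤ (ud - 1 + (r+1) + s) + (uc + q + (r+1)) + (ua + p))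
    · right; right
      refine ⟨h1.1, ?_, ?_, ?_, ?_, ?_, ?_⟩ <;> omega
    · left
      refine ⟨?_, ?_, ?_, ?_, ?_, ?_⟩ <;> omega

/-! ### The strategy of Algorithm -/

/-- The sets of vertices on which a colour can be used: `0, …, 4` are the single vertices,
`5 = {0, 3}`, `6 = {1, 3}`, `7 = {1, 4}`, `8 = {2, 4}`. -/
def inT (c : Fin 9) (v : Fin 5) : Bool :=
  decide (c.val = v.val) || (decide (c = 5) && (decide (v = 0) || decide (v = 3))) ||
  (decide (c = 6) && (decide (v = 1) || decide (v = 3))) ||
  (decide (c = 7) && (decide (v = 1) || decide (v = 4))) ||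
  (decide (c = 8) && (decide (v = 2) || decide (v = 4)))

/-- The type of a colour that is used on one vertex only. -/
def sgl (v : Fin 5) : Fin 9 := Fin.castLE (by decide) v

/-- The list of the possible `(y, x, {x, y})` for non-adjacent `x ≠ y`. -/
def J (y x : Fin 5) (c : Fin 9) : Prop :=
  (y, x, c) ∈ ([(3, 0, 5), (0, 3, 5), (1, 3, 6), (3, 1, 6), (4, 1, 7), (1, 4, 7), (2, 4, 8),
    (4, 2, 8)] : List (Fin 5 × Fin 5 × Fin 9))

instance (y x : Fin 5) (c : Fin 9) : Decidable (J y x c) := by
  unfold J
  infer_instance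

lemma J_spec : ∀ y x c, J y x c → ¬ (y = x ∨ C5p.Adj y x) ∧ inT c y = true ∧ inT c x = true := by
  decide

lemma inT_sgl : ∀ y v, inT (sgl y) v = true → v = y := by decide

lemma inT_self : ∀ y, inT (sgl y) y = true := by decide

/-- One move of Algorithm: the new token on `x` gets the colour `k`. -/
def Step (st : List (Fin 9)) (x : Fin 5) (k : ℕ) (st' : List (Fin 9)) : Prop :=
  (k = st.length ∧ st' = st ++ [sgl x]) ∨
  ∃ y c, J y x c ∧ st[k]? = some (sgl y) ∧ st' = st.set k c

/-- The numbers of the tokens and of the colours of the nine types. -/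
def Inv (w : ℕ) (l : List (Fin 5)) (st : List (Fin 9)) : Prop :=
  cnt l 0 = st.count 0 + st.count 5 ∧
  cnt l 3 = st.count 3 + st.count 5 + st.count 6 ∧
  cnt l 1 = st.count 1 + st.count 6 + st.count 7 ∧
  cnt l 4 = st.count 4 + st.count 7 + st.count 8 ∧
  cnt l 2 = st.count 2 + st.count 8 ∧
  st.length = st.count 0 + st.count 3 + st.count 1 + st.count 4 + st.count 2 + st.count 5 +
    st.count 6 + st.count 7 + st.count 8 ∧
  GoodN w ((w + 2) / 4) (st.count 0) (st.count 3) (st.count 1) (st.count 4) (st.count 2)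
    (st.count 5) (st.count 6) (st.count 7) (st.count 8)

/-- The clique conditions for a play. -/
def LegC (w : ℕ) (l : List (Fin 5)) : Prop :=
  cnt l 0 + cnt l 1 + cnt l 2 ≤ w ∧ cnt l 3 + cnt l 2 ≤ w ∧ cnt l 3 + cnt l 4 ≤ w ∧
    cnt l 0 + cnt l 4 ≤ w

lemma cnt_snoc (l : List (Fin 5)) (x v : Fin 5) :
    cnt (l ++ [x]) v = cnt l v + if x = v then 1 else 0 := by
  rw [cnt_append, cnt_single]
  by_cases h : x = v <;> simp [h]

lemma fresh_count (st : List (Fin 9)) (t i : Fin 9) :
    (st ++ [t]).count i = st.count i + if t = i then 1 else 0 := by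
  rw [List.count_append, List.count_singleton]
  congr 1
  by_cases h : t = i <;> simp [h]

lemma share_count {st : List (Fin 9)} {k : ℕ} {t : Fin 9} (h : st[k]? = some t) (c i : Fin 9) :
    (st.set k c).count i = st.count i - (if t = i then 1 else 0) + if c = i then 1 else 0 := by
  obtain ⟨hk, hk'⟩ := List.getElem?_eq_some_iff.1 h
  rw [List.count_set hk, hk']
  by_cases h1 : t = i <;> by_cases h2 : c = i <;> simp [h1, h2]

lemma count_pos_of {st : List (Fin 9)} {k : ℕ} {t : Fin 9} (h : st[k]? = some t) :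
    0 < st.count t := by
  rw [List.count_pos_iff]
  exact List.mem_of_getElem? h

lemma exists_of_pos {st : List (Fin 9)} {t : Fin 9} (h : 0 < st.count t) :
    ∃ k : ℕ, st[k]? = some t := by
  rw [List.count_pos_iff] at h
  exact List.mem_iff_getElem?.1 h

lemma fin5_cases : ∀ x : Fin 5, x = 0 ∨ x = 1 ∨ x = 2 ∨ x = 3 ∨ x = 4 := by decide

lemma inv_step {w : ℕ} {l : List (Fin 5)} {st : List (Fin 9)} (x : Fin 5) (h : Inv w l st)
    (hl : LegC w (l ++ [x])) :
    ∃ k st', Step st x k st' ∧ Inv w (l ++ [x]) st' := by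
  obtain ⟨h0, h3, h1, h4, h2, hlen, hg⟩ := h
  unfold LegC at hl
  simp only [cnt_snoc] at hl
  have s0 : sgl 0 = 0 := rfl
  have s1 : sgl 1 = 1 := rfl
  have s2 : sgl 2 = 2 := rfl
  have s3 : sgl 3 = 3 := rfl
  have s4 : sgl 4 = 4 := rfl
  rcases fin5_cases x with rfl | rfl | rfl | rfl | rfl <;>
    simp only [Fin.isValue, if_true, if_false, Fin.reduceEq, add_zero] at hl
  · rcases stepA w _ _ _ _ _ _ _ _ _ _ rfl hg (by unfold Leg; omega) with hg' | ⟨hp, hg'⟩
    · refine ⟨_, _, Or.inl ⟨rfl, rfl⟩, ?_⟩
      unfold Inv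
      simp only [fresh_count, cnt_snoc, s0, s1, s2, s3, s4, Fin.isValue, if_true, if_false,
        Fin.reduceEq, add_zero, List.length_append, List.length_singleton]
      exact ⟨by omega, by omega, by omega, by omega, by omega, by omega, hg'⟩
    · obtain ⟨k, hk⟩ := exists_of_pos hp
      refine ⟨_, _, Or.inr ⟨3, 5, by decide, hk, rfl⟩, ?_⟩
      unfold Inv
      simp only [share_count hk, cnt_snoc, Fin.isValue, if_true, if_false, Fin.reduceEq,
        add_zero, List.length_set, tsub_zero]
      exact ⟨by omega, by omega, by omega, by omega, by omega, by omega, hg'⟩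
  · rcases stepC w _ _ _ _ _ _ _ _ _ _ rfl hg (by unfold Leg; omega) with
      hg' | ⟨hp, hg'⟩ | ⟨hp, hg'⟩
    · refine ⟨_, _, Or.inl ⟨rfl, rfl⟩, ?_⟩
      unfold Inv
      simp only [fresh_count, cnt_snoc, s0, s1, s2, s3, s4, Fin.isValue, if_true, if_false,
        Fin.reduceEq, add_zero, List.length_append, List.length_singleton]
      exact ⟨by omega, by omega, by omega, by omega, by omega, by omega, hg'⟩
    · obtain ⟨k, hk⟩ := exists_of_pos hp
      refine ⟨_, _, Or.inr ⟨3, 6, by decide, hk, rfl⟩, ?_⟩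
      unfold Inv
      simp only [share_count hk, cnt_snoc, Fin.isValue, if_true, if_false, Fin.reduceEq,
        add_zero, List.length_set, tsub_zero]
      exact ⟨by omega, by omega, by omega, by omega, by omega, by omega, hg'⟩
    · obtain ⟨k, hk⟩ := exists_of_pos hp
      refine ⟨_, _, Or.inr ⟨4, 7, by decide, hk, rfl⟩, ?_⟩
      unfold Inv
      simp only [share_count hk, cnt_snoc, Fin.isValue, if_true, if_false, Fin.reduceEq,
        add_zero, List.length_set, tsub_zero]
      exact ⟨by omega, by omega, by omega, by omega, by omega, by omega, hg'⟩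
  · rcases stepE w _ _ _ _ _ _ _ _ _ _ rfl hg (by unfold Leg; omega) with hg' | ⟨hp, hg'⟩
    · refine ⟨_, _, Or.inl ⟨rfl, rfl⟩, ?_⟩
      unfold Inv
      simp only [fresh_count, cnt_snoc, s0, s1, s2, s3, s4, Fin.isValue, if_true, if_false,
        Fin.reduceEq, add_zero, List.length_append, List.length_singleton]
      exact ⟨by omega, by omega, by omega, by omega, by omega, by omega, hg'⟩
    · obtain ⟨k, hk⟩ := exists_of_pos hp
      refine ⟨_, _, Or.inr ⟨4, 8, by decide, hk, rfl⟩, ?_⟩
      unfold Inv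
      simp only [share_count hk, cnt_snoc, Fin.isValue, if_true, if_false, Fin.reduceEq,
        add_zero, List.length_set, tsub_zero]
      exact ⟨by omega, by omega, by omega, by omega, by omega, by omega, hg'⟩
  · rcases stepB w _ _ _ _ _ _ _ _ _ _ rfl hg (by unfold Leg; omega) with
      hg' | ⟨hp, hg'⟩ | ⟨hp, hg'⟩
    · refine ⟨_, _, Or.inl ⟨rfl, rfl⟩, ?_⟩
      unfold Inv
      simp only [fresh_count, cnt_snoc, s0, s1, s2, s3, s4, Fin.isValue, if_true, if_false,
        Fin.reduceEq, add_zero, List.length_append, List.length_singleton]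
      exact ⟨by omega, by omega, by omega, by omega, by omega, by omega, hg'⟩
    · obtain ⟨k, hk⟩ := exists_of_pos hp
      refine ⟨_, _, Or.inr ⟨0, 5, by decide, hk, rfl⟩, ?_⟩
      unfold Inv
      simp only [share_count hk, cnt_snoc, Fin.isValue, if_true, if_false, Fin.reduceEq,
        add_zero, List.length_set, tsub_zero]
      exact ⟨by omega, by omega, by omega, by omega, by omega, by omega, hg'⟩
    · obtain ⟨k, hk⟩ := exists_of_pos hp
      refine ⟨_, _, Or.inr ⟨1, 6, by decide, hk, rfl⟩, ?_⟩
      unfold Inv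
      simp only [share_count hk, cnt_snoc, Fin.isValue, if_true, if_false, Fin.reduceEq,
        add_zero, List.length_set, tsub_zero]
      exact ⟨by omega, by omega, by omega, by omega, by omega, by omega, hg'⟩
  · rcases stepD w _ _ _ _ _ _ _ _ _ _ rfl hg (by unfold Leg; omega) with
      hg' | ⟨hp, hg'⟩ | ⟨hp, hg'⟩
    · refine ⟨_, _, Or.inl ⟨rfl, rfl⟩, ?_⟩
      unfold Inv
      simp only [fresh_count, cnt_snoc, s0, s1, s2, s3, s4, Fin.isValue, if_true, if_false,
        Fin.reduceEq, add_zero, List.length_append, List.length_singleton]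
      exact ⟨by omega, by omega, by omega, by omega, by omega, by omega, hg'⟩
    · obtain ⟨k, hk⟩ := exists_of_pos hp
      refine ⟨_, _, Or.inr ⟨2, 8, by decide, hk, rfl⟩, ?_⟩
      unfold Inv
      simp only [share_count hk, cnt_snoc, Fin.isValue, if_true, if_false, Fin.reduceEq,
        add_zero, List.length_set, tsub_zero]
      exact ⟨by omega, by omega, by omega, by omega, by omega, by omega, hg'⟩
    · obtain ⟨k, hk⟩ := exists_of_pos hp
      refine ⟨_, _, Or.inr ⟨1, 7, by decide, hk, rfl⟩, ?_⟩
      unfold Inv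
      simp only [share_count hk, cnt_snoc, Fin.isValue, if_true, if_false, Fin.reduceEq,
        add_zero, List.length_set, tsub_zero]
      exact ⟨by omega, by omega, by omega, by omega, by omega, by omega, hg'⟩

/-! ### Legality -/

lemma countP_eq_card {α : Type} (l : List α) (P : α → Bool) :
    l.countP P = (Finset.univ.filter fun i : Fin l.length => P l[i] = true).card := by
  have h : l = (List.finRange l.length).map (fun i => l[i]) := by
    simp
  conv_lhs => rw [h]
  rw [List.countP_map, List.countP_eq_length_filter]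
  have hn : (List.filter (P ∘ fun i : Fin l.length => l[i]) (List.finRange l.length)).Nodup :=
    (List.nodup_finRange _).filter _
  rw [← List.toFinset_card_of_nodup hn]
  congr 1
  ext i
  simp

lemma clique_le {V : Type} {G : SimpleGraph V} {w : ℕ} {l : List V} (h : Legal G w l)
    (P : V → Bool) (hP : ∀ u v, P u = true → P v = true → u = v ∨ G.Adj u v) :
    l.countP P ≤ w := by
  obtain ⟨c⟩ := h l (List.prefix_refl l)
  rw [countP_eq_card]
  have hinj : Set.InjOn c (Finset.univ.filter fun i : Fin l.length => P l[i] = true) := by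
    intro i hi j hj hij
    simp only [Finset.coe_filter, Finset.mem_univ, true_and, Set.mem_ofPred_eq] at hi hj
    by_contra hne
    exact c.valid (v := i) (w := j) ⟨hne, hP _ _ hi hj⟩ hij
  rw [← Finset.card_image_of_injOn hinj]
  simpa using Finset.card_le_univ (Finset.image c
    (Finset.univ.filter fun i : Fin l.length => P l[i] = true))

lemma cnt_nil (v : Fin 5) : cnt ([] : List (Fin 5)) v = 0 := by
  simp [cnt]

lemma countP_three (l : List (Fin 5)) :
    l.countP (fun u => decide (u = 0 ∨ u = 1 ∨ u = 2)) = cnt l 0 + cnt l 1 + cnt l 2 := by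
  induction l using List.reverseRecOn with
  | nil => simp [cnt_nil]
  | append_singleton l x ih =>
    rw [List.countP_append, ih, cnt_snoc, cnt_snoc, cnt_snoc, List.countP_singleton]
    rcases fin5_cases x with rfl | rfl | rfl | rfl | rfl <;> simp <;> omega

lemma countP_two {a b : Fin 5} (hab : a ≠ b) (l : List (Fin 5)) :
    l.countP (fun u => decide (u = a ∨ u = b)) = cnt l a + cnt l b := by
  induction l using List.reverseRecOn with
  | nil => simp [cnt_nil]
  | append_singleton l x ih =>
    rw [List.countP_append, ih, cnt_snoc, cnt_snoc, List.countP_singleton]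
    by_cases h1 : x = a
    · subst h1
      simp [hab]
      omega
    · by_cases h2 : x = b
      · subst h2
        simp [h1]
        omega
      · simp [h1, h2]

lemma legC_of_legal {w : ℕ} {l : List (Fin 5)} (h : Legal C5p w l) : LegC w l := by
  refine ⟨?_, ?_, ?_, ?_⟩
  · rw [← countP_three]
    exact clique_le h _ (by simp only [decide_eq_true_eq]; decide)
  · rw [← countP_two (by decide)]
    exact clique_le h _ (by simp only [decide_eq_true_eq]; decide)
  · rw [← countP_two (by decide)]
    exact clique_le h _ (by simp only [decide_eq_true_eq]; decide)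
  · rw [← countP_two (by decide)]
    exact clique_le h _ (by simp only [decide_eq_true_eq]; decide)

lemma Legal.sub {V : Type} {G : SimpleGraph V} {w : ℕ} {l l' : List V} (h : Legal G w l)
    (hp : l' <+: l) : Legal G w l' :=
  fun l'' hl'' => h l'' (hl''.trans hp)

/-! ### The upper bound -/

open Classical in
/-- The reaction of Algorithm. -/
noncomputable def next (w : ℕ) (l : List (Fin 5)) (st : List (Fin 9)) (x : Fin 5) :
    ℕ × List (Fin 9) :=
  if h : ∃ z : ℕ × List (Fin 9), Step st x z.1 z.2 ∧ Inv w (l ++ [x]) z.2 then h.choose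
  else (0, st)

noncomputable def runR (w : ℕ) : List (Fin 5) → List (Fin 9)
  | [] => []
  | x :: l => (next w l.reverse (runR w l) x).2

noncomputable def run (w : ℕ) (l : List (Fin 5)) : List (Fin 9) := runR w l.reverse

noncomputable def strat (w : ℕ) (l : List (Fin 5)) : ℕ :=
  match l.reverse with
  | [] => 0
  | x :: l' => (next w l'.reverse (runR w l') x).1

lemma run_snoc (w : ℕ) (l : List (Fin 5)) (x : Fin 5) :
    run w (l ++ [x]) = (next w l (run w l) x).2 := by
  simp [run, runR]

lemma strat_snoc (w : ℕ) (l : List (Fin 5)) (x : Fin 5) :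
    strat w (l ++ [x]) = (next w l (run w l) x).1 := by
  simp [strat, run]

lemma main_inv (w : ℕ) (l : List (Fin 5)) (hl : Legal C5p w l) :
    Inv w l (run w l) ∧
    (∀ p u, (p ++ [u]) <+: l → ∃ c, (run w l)[strat w (p ++ [u])]? = some c ∧ inT c u = true) ∧
    PProper C5p (strat w) l := by
  induction l using List.reverseRecOn with
  | nil =>
    refine ⟨?_, ?_, ?_⟩
    · simp [Inv, run, runR, cnt_nil, GoodN]
    · intro p u h
      simp at h
    · intro p u q v _ h
      simp at h
  | append_singleton l x ih =>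
    obtain ⟨i1, i2, i3⟩ := ih (Legal.sub hl (List.prefix_append _ _))
    have hex : ∃ z : ℕ × List (Fin 9), Step (run w l) x z.1 z.2 ∧ Inv w (l ++ [x]) z.2 := by
      obtain ⟨k, st', h1, h2⟩ := inv_step x i1 (legC_of_legal hl)
      exact ⟨(k, st'), h1, h2⟩
    have hn : next w l (run w l) x = hex.choose := by
      unfold next
      rw [dif_pos hex]
    have hs := hex.choose_spec
    rw [← hn, ← run_snoc, ← strat_snoc] at hs
    obtain ⟨hstep, hinv⟩ := hs
    refine ⟨hinv, ?_, ?_⟩
    · intro p u hp
      rw [List.prefix_concat_iff] at hp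
      rcases hp with hp | hp
      · obtain ⟨rfl, rfl⟩ : p = l ∧ u = x := by
          have := List.append_inj' hp rfl
          simpa using this
        rcases hstep with ⟨hk, hst⟩ | ⟨y, c, hJ, hk, hst⟩
        · rw [hk, hst]
          exact ⟨sgl u, by simp, inT_self u⟩
        · rw [hst]
          refine ⟨c, ?_, (J_spec _ _ _ hJ).2.2⟩
          obtain ⟨hk1, _⟩ := List.getElem?_eq_some_iff.1 hk
          rw [List.getElem?_set_self hk1]
      · obtain ⟨c, hc, hcu⟩ := i2 p u hp
        rcases hstep with ⟨hk, hst⟩ | ⟨y, c', hJ, hk, hst⟩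
        · rw [hst]
          obtain ⟨hk1, hk2⟩ := List.getElem?_eq_some_iff.1 hc
          refine ⟨c, ?_, hcu⟩
          rw [List.getElem?_append_left hk1, hc]
        · rw [hst]
          by_cases he : strat w (l ++ [x]) = strat w (p ++ [u])
          · rw [he] at hk ⊢
            obtain ⟨hk1, _⟩ := List.getElem?_eq_some_iff.1 hk
            rw [hk] at hc
            have hcc : c = sgl y := by simpa using hc.symm
            rw [hcc] at hcu
            have huy := inT_sgl _ _ hcu
            refine ⟨c', List.getElem?_set_self hk1, ?_⟩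
            rw [huy]
            exact (J_spec _ _ _ hJ).2.1
          · refine ⟨c, ?_, hcu⟩
            rw [List.getElem?_set_ne he, hc]
    · intro p u q v hpq hql huv
      rw [List.prefix_concat_iff] at hql
      rcases hql with hql | hql
      · obtain ⟨rfl, rfl⟩ : q = l ∧ v = x := by
          have := List.append_inj' hql rfl
          simpa using this
        obtain ⟨c, hc, hcu⟩ := i2 p u hpq
        obtain ⟨hc1, hc2⟩ := List.getElem?_eq_some_iff.1 hc
        rcases hstep with ⟨hk, hst⟩ | ⟨y, c', hJ, hk, hst⟩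
        · rw [hk]
          exact hc1.ne
        · intro he
          rw [he, hk] at hc
          have hcc : c = sgl y := by simpa using hc.symm
          rw [hcc] at hcu
          have huy := inT_sgl _ _ hcu
          rw [huy] at huv
          exact (J_spec _ _ _ hJ).1 huv
      · exact i3 p u q v hpq hql huv

lemma wins (w : ℕ) : Wins C5p w (strat w) (w + (w + 2) / 4) := by
  intro l hl
  obtain ⟨hinv, hcol, hprop⟩ := main_inv w l hl
  have hlegC := legC_of_legal hl
  constructor
  · have key : ∀ i j : Fin l.length, i < j → (tokenGraph C5p l).Adj i j →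
        tokenColour (strat w) l i ≠ tokenColour (strat w) l j := by
      intro i j hij hadj
      have h := hprop (l.take i) l[i] (l.take j) l[j] ?_ ?_ hadj.2
      · unfold tokenColour
        rw [List.take_succ_eq_append_getElem i.2, List.take_succ_eq_append_getElem j.2]
        exact h
      · have := List.take_succ_eq_append_getElem (l := l) i.2
        simp only [Fin.getElem_fin]
        rw [← this]
        exact List.take_prefix_take_left hij
      · have := List.take_succ_eq_append_getElem (l := l) j.2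
        simp only [Fin.getElem_fin]
        rw [← this]
        exact List.take_prefix _ _
    intro i j hadj
    rcases lt_trichotomy i j with h | h | h
    · exact key i j h hadj
    · exact absurd h hadj.1
    · exact (key j i h hadj.symm).symm
  · have h1 : (Finset.univ.image (tokenColour (strat w) l)) ⊆
        Finset.range (run w l).length := by
      intro a ha
      simp only [Finset.mem_image, Finset.mem_univ, true_and] at ha
      obtain ⟨i, rfl⟩ := ha
      have hp : (l.take i ++ [l[i]]) <+: l := by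
        have := List.take_succ_eq_append_getElem (l := l) i.2
        simp only [Fin.getElem_fin]
        rw [← this]
        exact List.take_prefix _ _
      obtain ⟨c, hc, _⟩ := hcol _ _ hp
      obtain ⟨hc1, _⟩ := List.getElem?_eq_some_iff.1 hc
      rw [Finset.mem_range]
      unfold tokenColour
      rw [List.take_succ_eq_append_getElem i.2]
      exact hc1
    refine (Finset.card_le_card h1).trans ?_
    rw [Finset.card_range]
    obtain ⟨e0, e3, e1, e4, e2, hlen, hg⟩ := hinv
    unfold LegC at hlegC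
    have := final_num w _ _ _ _ _ _ _ _ _ _ rfl hg (by unfold Leg; omega)
    omega

/-! ### The lower bound -/

lemma pproper_of_wins {V : Type} {G : SimpleGraph V} {w N : ℕ} {A : List V → ℕ}
    (h : Wins G w A N) {l : List V} (hleg : Legal G w l) : PProper G A l := by
  intro p u q v hpq hql huv
  have hpl : (p ++ [u]) <+: l := hpq.trans ((List.prefix_append _ _).trans hql)
  have hlen1 := hpq.length_le
  have hlen2 := hql.length_le
  simp only [List.length_append, List.length_singleton] at hlen1 hlen2
  have hi : p.length < l.length := by omega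
  have hj : q.length < l.length := by omega
  have e1 : l.take (p.length + 1) = p ++ [u] := by
    have := List.prefix_iff_eq_take.1 hpl
    simpa using this.symm
  have e2 : l.take (q.length + 1) = q ++ [v] := by
    have := List.prefix_iff_eq_take.1 hql
    simpa using this.symm
  have g1 : l[p.length] = u := by
    have h1 : (l.take (p.length + 1))[p.length]? = (p ++ [u])[p.length]? := by rw [e1]
    rw [List.getElem?_take_of_lt (by omega)] at h1
    simpa [List.getElem?_eq_getElem hi] using h1
  have g2 : l[q.length] = v := by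
    have h1 : (l.take (q.length + 1))[q.length]? = (q ++ [v])[q.length]? := by rw [e2]
    rw [List.getElem?_take_of_lt (by omega)] at h1
    simpa [List.getElem?_eq_getElem hj] using h1
  have := (h l hleg).1 ⟨p.length, hi⟩ ⟨q.length, hj⟩ ⟨by
    intro h; rw [Fin.mk.injEq] at h; omega, by
    simp only [Fin.getElem_fin, g1, g2]; exact huv⟩
  simp only [tokenColour, e1, e2] at this
  exact this

/-- A play is legal when there is an explicit off-line colouring: the `i`-th token on `v` gets the
colour `f v i`. -/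
lemma legal_of {V : Type} {G : SimpleGraph V} {w : ℕ} {l : List V} (f : V → ℕ → ℕ)
    (hf : ∀ v i, i < cnt l v → f v i < w)
    (hinj : ∀ v i j, i < cnt l v → j < cnt l v → f v i = f v j → i = j)
    (hadj : ∀ u v i j, G.Adj u v → i < cnt l u → j < cnt l v → f u i ≠ f v j) :
    Legal G w l := by
  intro l' hl'
  have hcnt : ∀ i : Fin l'.length, cnt (l'.take i) l'[i] < cnt l l'[i] := by
    intro i
    have h1 : cnt (l'.take (i + 1)) l'[i] ≤ cnt l l'[i] :=
      (cnt_le_of_prefix ((List.take_prefix _ l').trans hl') _)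
    rw [List.take_succ_eq_append_getElem i.2, cnt_append] at h1
    have h2 : cnt ([l'[(i : ℕ)]] : List V) l'[i] = 1 := by simp [cnt_single]
    rw [h2] at h1
    omega
  have hlt : ∀ i j : Fin l'.length, i < j → l'[i] = l'[j] →
      cnt (l'.take i) l'[i] < cnt (l'.take j) l'[j] := by
    intro i j hij he
    have h1 : l'.take (i + 1) <+: l'.take j := by
      apply List.take_prefix_take_left
      exact hij
    have h2 := cnt_le_of_prefix h1 l'[j]
    rw [List.take_succ_eq_append_getElem i.2, cnt_append] at h2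
    have h3 : cnt ([l'[(i : ℕ)]] : List V) l'[j] = 1 := by
      rw [← he]; simp [cnt_single]
    rw [h3] at h2
    rw [he]
    omega
  refine ⟨SimpleGraph.Coloring.mk (fun i : Fin l'.length =>
    (⟨f l'[i] (cnt (l'.take i) l'[i]), hf _ _ (hcnt i)⟩ : Fin w)) ?_⟩
  intro i j hij heq
  obtain ⟨hne, hor⟩ := hij
  rw [Fin.mk.injEq] at heq
  have h1 := hcnt i
  have h2 := hcnt j
  rcases hor with he | hor
  · have h3 : cnt (l'.take i) l'[i] = cnt (l'.take j) l'[j] := by
      rw [he] at heq h1 ⊢
      exact hinj _ _ _ h1 h2 heq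
    rcases lt_or_gt_of_ne hne with hlt' | hlt'
    · exact absurd h3 (hlt i j hlt' he).ne
    · exact absurd h3.symm (hlt j i hlt' he.symm).ne
  · exact hadj _ _ _ _ hor h1 h2 heq

lemma disj {V : Type} {G : SimpleGraph V} {A : List V → ℕ} {l : List V} {u v : V}
    (h : PProper G A l) (hadj : G.Adj u v) : Disjoint (cols A l {u}) (cols A l {v}) := by
  classical
  have h1 := disj_cols (c := fun z => decide (z = v)) (y := u) h (by simpa using hadj.ne)
    (by
      intro x _ hx
      simp only [decide_eq_true_eq] at hx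
      rw [hx]
      exact hadj)
  have h2 : {x | decide (x = v) = true} = ({v} : Set V) := by
    ext x
    simp
  rw [h2] at h1
  exact h1

/-- The beginning of Spoiler's strategy. -/
def l0 (x y : ℕ) : List (Fin 5) := List.replicate x 1 ++ List.replicate y 3

/-- The first continuation. -/
def l1 (x y : ℕ) : List (Fin 5) := l0 x y ++ List.replicate y 0 ++ List.replicate x 4

/-- The second continuation. -/
def l2 (x y : ℕ) : List (Fin 5) := l0 x y ++ List.replicate x 2

lemma cnt_l1 (x y : ℕ) (v : Fin 5) :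
    cnt (l1 x y) v = ![y, x, 0, y, x] v := by
  unfold l1 l0
  rw [cnt_append, cnt_append, cnt_append, cnt_replicate, cnt_replicate, cnt_replicate,
    cnt_replicate]
  rcases fin5_cases v with rfl | rfl | rfl | rfl | rfl <;> simp

lemma cnt_l2 (x y : ℕ) (v : Fin 5) :
    cnt (l2 x y) v = ![0, x, x, y, 0] v := by
  unfold l2 l0
  rw [cnt_append, cnt_append, cnt_replicate, cnt_replicate, cnt_replicate]
  rcases fin5_cases v with rfl | rfl | rfl | rfl | rfl <;> simp

lemma legal_l1 {w x y : ℕ} (h : x + y = w) : Legal C5p w (l1 x y) := by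
  apply legal_of (fun v i => ![x + i, i, 0, x + i, i] v)
  · intro v i hi
    rw [cnt_l1] at hi
    rcases fin5_cases v with rfl | rfl | rfl | rfl | rfl <;> simp at hi ⊢ <;> omega
  · intro v i j hi hj
    rw [cnt_l1] at hi hj
    rcases fin5_cases v with rfl | rfl | rfl | rfl | rfl <;> simp at hi hj ⊢
  · intro u v i j hadj hi hj
    rw [cnt_l1] at hi hj
    rcases fin5_cases u with rfl | rfl | rfl | rfl | rfl <;>
      rcases fin5_cases v with rfl | rfl | rfl | rfl | rfl <;>
      first
        | (exfalso; revert hadj; decide)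
        | (simp at hi hj ⊢; try omega)

lemma legal_l2 {w x y : ℕ} (h : x + y = w) (hxy : x ≤ y) : Legal C5p w (l2 x y) := by
  apply legal_of (fun v i => ![0, i, y + i, i, 0] v)
  · intro v i hi
    rw [cnt_l2] at hi
    rcases fin5_cases v with rfl | rfl | rfl | rfl | rfl <;> simp at hi ⊢ <;> omega
  · intro v i j hi hj
    rw [cnt_l2] at hi hj
    rcases fin5_cases v with rfl | rfl | rfl | rfl | rfl <;> simp at hi hj ⊢
  · intro u v i j hadj hi hj
    rw [cnt_l2] at hi hj
    rcases fin5_cases u with rfl | rfl | rfl | rfl | rfl <;>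
      rcases fin5_cases v with rfl | rfl | rfl | rfl | rfl <;>
      first
        | (exfalso; revert hadj; decide)
        | (simp at hi hj ⊢; try omega)

lemma lower {w x y N : ℕ} {A : List (Fin 5) → ℕ} (hA : Wins C5p w A N) (h : x + y = w)
    (hxy : x ≤ y) : 2 * w + x ≤ 2 * N := by
  have hL1 := legal_l1 h
  have hL2 := legal_l2 h hxy
  have hp1 := pproper_of_wins hA hL1
  have hp2 := pproper_of_wins hA hL2
  have pre1 : l0 x y ++ List.replicate y 0 <+: l1 x y := List.prefix_append _ _
  have pre01 : l0 x y <+: l1 x y := (List.prefix_append _ _).trans pre1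
  have pre02 : l0 x y <+: l2 x y := List.prefix_append _ _
  have prec : List.replicate x (1 : Fin 5) <+: l0 x y := List.prefix_append _ _
  -- sizes
  have hB : y ≤ (cols A (l0 x y) {3}).ncard :=
    cols_replicate (pproper_of_wins hA (Legal.sub hL2 pre02))
  have hC : x ≤ (cols A (l0 x y) {1}).ncard := by
    have h1 := pproper_of_wins hA (Legal.sub hL2 (prec.trans pre02))
    have h2 : x ≤ (cols A ([] ++ List.replicate x 1) {1}).ncard :=
      cols_replicate (by simpa using h1)
    refine h2.trans (Set.ncard_le_ncard ?_ (cols_finite _ _ _))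
    exact cols_mono (by simpa using prec) le_rfl
  have hA1 : y ≤ (cols A (l1 x y) {0}).ncard := by
    have h2 : y ≤ (cols A (l0 x y ++ List.replicate y 0) {0}).ncard :=
      cols_replicate (pproper_of_wins hA (Legal.sub hL1 pre1))
    exact h2.trans (Set.ncard_le_ncard (cols_mono pre1 le_rfl) (cols_finite _ _ _))
  have hD1 : x ≤ (cols A (l1 x y) {4}).ncard := cols_replicate hp1
  have hE2 : x ≤ (cols A (l2 x y) {2}).ncard := cols_replicate hp2
  -- first option
  have opt1 : y + x + (cols A (l0 x y) {3} ∩ cols A (l0 x y) {1}).ncard ≤ N := by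
    have d1 : Disjoint (cols A (l1 x y) {0}) (cols A (l1 x y) {4}) := disj hp1 (by decide)
    have d2 : Disjoint (cols A (l1 x y) {0} ∪ cols A (l1 x y) {4})
        (cols A (l0 x y) {3} ∩ cols A (l0 x y) {1}) := by
      rw [Set.disjoint_union_left]
      constructor
      · exact (disj hp1 (show C5p.Adj 0 1 by decide)).mono_right
          (Set.inter_subset_right.trans (cols_mono pre01 le_rfl))
      · exact (disj hp1 (show C5p.Adj 4 3 by decide)).mono_right
          (Set.inter_subset_left.trans (cols_mono pre01 le_rfl))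
    have e1 := Set.ncard_union_eq d1 (cols_finite _ _ _) (cols_finite _ _ _)
    have e2 := Set.ncard_union_eq d2 ((cols_finite _ _ _).union (cols_finite _ _ _))
      ((cols_finite _ _ _).subset Set.inter_subset_left)
    have hle : (cols A (l1 x y) {0} ∪ cols A (l1 x y) {4} ∪
        (cols A (l0 x y) {3} ∩ cols A (l0 x y) {1})).ncard ≤ N := by
      refine le_trans (Set.ncard_le_ncard ?_ (cols_finite A (l1 x y) Set.univ))
        (cols_card_le hA hL1 Set.univ)
      refine Set.union_subset (Set.union_subset ?_ ?_) ?_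
      · exact cols_mono (List.prefix_refl _) (Set.subset_univ _)
      · exact cols_mono (List.prefix_refl _) (Set.subset_univ _)
      · exact Set.inter_subset_left.trans (cols_mono pre01 (Set.subset_univ _))
    omega
  -- second option
  have opt2 : x + y + x ≤ N + (cols A (l0 x y) {3} ∩ cols A (l0 x y) {1}).ncard := by
    have d2 : Disjoint (cols A (l2 x y) {2})
        (cols A (l0 x y) {3} ∪ cols A (l0 x y) {1}) := by
      rw [Set.disjoint_union_right]
      constructor
      · exact (disj hp2 (show C5p.Adj 2 3 by decide)).mono_right (cols_mono pre02 le_rfl)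
      · exact (disj hp2 (show C5p.Adj 2 1 by decide)).mono_right (cols_mono pre02 le_rfl)
    have e1 := Set.ncard_union_add_ncard_inter (cols A (l0 x y) {3}) (cols A (l0 x y) {1})
      (cols_finite _ _ _) (cols_finite _ _ _)
    have e2 := Set.ncard_union_eq d2 (cols_finite _ _ _)
      ((cols_finite _ _ _).union (cols_finite _ _ _))
    have hle : (cols A (l2 x y) {2} ∪
        (cols A (l0 x y) {3} ∪ cols A (l0 x y) {1})).ncard ≤ N := by
      refine le_trans (Set.ncard_le_ncard ?_ (cols_finite A (l2 x y) Set.univ))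
        (cols_card_le hA hL2 Set.univ)
      refine Set.union_subset ?_ (Set.union_subset ?_ ?_)
      · exact cols_mono (List.prefix_refl _) (Set.subset_univ _)
      · exact cols_mono pre02 (Set.subset_univ _)
      · exact cols_mono pre02 (Set.subset_univ _)
    omega
  omega

/-! ### The results -/

theorem value_eq (w : ℕ) : value C5p w = w + (w + 2) / 4 := by
  apply le_antisymm
  · exact Nat.sInf_le ⟨strat w, wins w⟩
  · obtain ⟨A, hA⟩ := value_wins C5p w
    have := lower hA (x := w / 2) (y := w - w / 2) (by omega) (by omega)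
    omega

/-- The value of the on-line token colouring game on the 5-cycle with one chord is
`w + ⌊(w + 2) / 4⌋` for every width `w`; in particular it is `(5/4 + o(1)) w`. -/
theorem result :
    (∀ w : ℕ, value C5p w = w + (w + 2) / 4) ∧
    Filter.Tendsto (fun w : ℕ => (value C5p w : ℝ) / w) Filter.atTop (nhds (5 / 4)) := by
  refine ⟨value_eq, ?_⟩
  have h1 : ∀ w : ℕ, 0 < w →
      |(value C5p w : ℝ) / w - 5 / 4| ≤ 1 / (w : ℝ) := by
    intro w hw
    have hw' : (0 : ℝ) < w := by exact_mod_cast hw
    rw [value_eq]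
    have h2 : 4 * ((w + 2) / 4) ≤ w + 2 := by omega
    have h3 : w ≤ 4 * ((w + 2) / 4) + 1 := by omega
    have h2' : (4 : ℝ) * (((w + 2) / 4 : ℕ) : ℝ) ≤ w + 2 := by exact_mod_cast h2
    have h3' : (w : ℝ) ≤ 4 * (((w + 2) / 4 : ℕ) : ℝ) + 1 := by exact_mod_cast h3
    push_cast
    have h4 : ((w : ℝ) + (((w + 2) / 4 : ℕ) : ℝ)) / w - 5 / 4 =
        ((((w + 2) / 4 : ℕ) : ℝ) - w / 4) / w := by
      field_simp
      ring
    rw [h4, abs_div, abs_of_pos hw', div_le_div_iff_of_pos_right hw', abs_le]
    constructor <;> linarith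
  rw [Metric.tendsto_atTop]
  intro ε hε
  obtain ⟨n, hn⟩ := exists_nat_gt (1 / ε)
  refine ⟨n + 1, fun w hw => ?_⟩
  have hw0 : 0 < w := by omega
  have hw' : (0 : ℝ) < w := by exact_mod_cast hw0
  rw [Real.dist_eq]
  refine (h1 w hw0).trans_lt ?_
  rw [div_lt_iff₀ hw']
  have h5 : (1 / ε) < w := hn.trans (by exact_mod_cast hw)
  rw [div_lt_iff₀ hε] at h5
  linarith

end Pool.Agent.Results.MP_f00a0c_co.ExactValue
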